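import Pool.Agent.Q37.LGP.Position
import Pool.Agent.Q37.LGP.Taylor

/-!
Points in linear general position with an unexpected hypersurface of degree `3` that has
multiplicity `2` at a general point, in every projective space of dimension `n ≥ 4`.
-/

set_option autoImplicit false

namespace Pool.Agent.Results.MP_b2f0ea_ag.UnexpectedCubic

open MvPolynomial
open scoped LinearAlgebra.Projectivization

section Definitions

variable {K : Type*} [Field K] {n : ℕ}

/-- the affine cone over a set of points of `ℙ^n` -/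
def cone (Z : Set (ℙ K (Fin (n + 1) → K))) : Set (Fin (n + 1) → K) :=
  {v | ∃ p ∈ Z, v ∈ p.submodule}

/-- the homogeneous vanishing ideal `I_Z` of a set of points of `ℙ^n`: the polynomials that vanish
on the affine cone over `Z` -/
noncomputable def idealOf (Z : Set (ℙ K (Fin (n + 1) → K))) : Ideal (MvPolynomial (Fin (n + 1)) K) :=
  vanishingIdeal K (cone Z)

/-- `I_{Z + m P} = I_Z ∩ I_P ^ m` -/
noncomputable def idealFat (Z : Set (ℙ K (Fin (n + 1) → K))) (m : ℕ) (P : ℙ K (Fin (n + 1) → K)) :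
    Ideal (MvPolynomial (Fin (n + 1)) K) :=
  idealOf Z ⊓ idealOf {P} ^ m

/-- `[I]_d`, the forms of degree `d` in the ideal `I` -/
noncomputable def part (I : Ideal (MvPolynomial (Fin (n + 1)) K)) (d : ℕ) :
    Submodule K (MvPolynomial (Fin (n + 1)) K) :=
  I.restrictScalars K ⊓ homogeneousSubmodule (Fin (n + 1)) K d

/-- `dim [I]_d` -/
noncomputable def hdim (I : Ideal (MvPolynomial (Fin (n + 1)) K)) (d : ℕ) : ℕ :=
  Module.finrank K (part I d)

/-- `Z` is not contained in a hyperplane -/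
def Nondegenerate (Z : Finset (ℙ K (Fin (n + 1) → K))) : Prop :=
  ∀ l : MvPolynomial (Fin (n + 1)) K, l.IsHomogeneous 1 →
    l ∈ idealOf (Z : Set (ℙ K (Fin (n + 1) → K))) → l = 0

/-- every subset of at most `n + 1` points is linearly independent -/
def LinearGeneralPosition (Z : Finset (ℙ K (Fin (n + 1) → K))) : Prop :=
  ∀ T ⊆ Z, T.card ≤ n + 1 →
    Projectivization.Independent (fun p : T => (p : ℙ K (Fin (n + 1) → K)))

/-- `dim [I_{Z + m P}]_d > max {0, dim [I_Z]_d - binom(m + n - 1, n)}` -/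
def UnexpectedAt (Z : Finset (ℙ K (Fin (n + 1) → K))) (d m : ℕ)
    (P : ℙ K (Fin (n + 1) → K)) : Prop :=
  max 0 ((hdim (idealOf (Z : Set (ℙ K (Fin (n + 1) → K)))) d : ℤ) - (m + n - 1).choose n) <
    hdim (idealFat (Z : Set (ℙ K (Fin (n + 1) → K))) m P) d

/-- `Z` admits an unexpected hypersurface of degree `d` with multiplicity `m` at a general point:
the inequality holds for all points outside some hypersurface -/
def AdmitsUnexpected (Z : Finset (ℙ K (Fin (n + 1) → K))) (d m : ℕ) : Prop :=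
  ∃ (g : MvPolynomial (Fin (n + 1)) K) (e : ℕ), g ≠ 0 ∧ g.IsHomogeneous e ∧
    ∀ P : ℙ K (Fin (n + 1) → K), eval P.rep g ≠ 0 → UnexpectedAt Z d m P

end Definitions

section Lemmas

open Q37.LGP

variable {K : Type*} [Field K] {n : ℕ}

theorem mem_idealOf {Z : Set (ℙ K (Fin (n + 1) → K))} {F : MvPolynomial (Fin (n + 1)) K} :
    F ∈ idealOf Z ↔ ∀ v ∈ cone Z, eval v F = 0 := by
  rw [idealOf, mem_vanishingIdeal_iff]
  exact Iff.rfl

theorem eval_smul_form {d : ℕ} {F : MvPolynomial (Fin (n + 1)) K} (hF : F.IsHomogeneous d)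
    (c : K) (v : Fin (n + 1) → K) : eval (c • v) F = eval v F * c ^ d := by
  have h := aeval_scale v c d F hF
  simp only [Algebra.algebraMap_self, RingHom.id_apply] at h
  have e : (fun i => v i * c) = c • v := by
    funext i
    rw [Pi.smul_apply, smul_eq_mul, mul_comm]
  rw [e] at h
  exact h

/-- membership of a form in `I_Z` can be tested on one vector for every point -/
theorem form_mem_idealOf {Z : Set (ℙ K (Fin (n + 1) → K))} {d : ℕ}
    {F : MvPolynomial (Fin (n + 1)) K} (hF : F.IsHomogeneous d)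
    (h : ∀ p ∈ Z, ∃ v : Fin (n + 1) → K, ∃ hv : v ≠ 0, Projectivization.mk K v hv = p ∧
      eval v F = 0) : F ∈ idealOf Z := by
  rw [mem_idealOf]
  rintro w ⟨p, hp, hw⟩
  obtain ⟨v, hv, rfl, h0⟩ := h p hp
  rw [Projectivization.submodule_mk, Submodule.mem_span_singleton] at hw
  obtain ⟨c, rfl⟩ := hw
  rw [eval_smul_form hF, h0, zero_mul]

theorem eval_of_mem {Z : Set (ℙ K (Fin (n + 1) → K))} {F : MvPolynomial (Fin (n + 1)) K}
    (hF : F ∈ idealOf Z) (v : Fin (n + 1) → K) (hv : v ≠ 0)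
    (hm : Projectivization.mk K v hv ∈ Z) : eval v F = 0 := by
  rw [mem_idealOf] at hF
  apply hF
  refine ⟨_, hm, ?_⟩
  rw [Projectivization.submodule_mk]
  exact Submodule.mem_span_singleton_self v

instance finite_part (I : Ideal (MvPolynomial (Fin (n + 1)) K)) (d : ℕ) :
    FiniteDimensional K (part I d) := by
  have h1 : (weightedHomogeneousSubmodule K (1 : Fin (n + 1) → ℕ) d).FG :=
    weightedHomogeneousSubmodule_fg K 1 (fun _ => one_ne_zero) d
  have h2 : Module.Finite K (weightedHomogeneousSubmodule K (1 : Fin (n + 1) → ℕ) d) :=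
    Module.Finite.iff_fg.2 h1
  have h3 : part I d ≤ weightedHomogeneousSubmodule K (1 : Fin (n + 1) → ℕ) d :=
    fun x hx => hx.2
  exact Submodule.finiteDimensional_of_le h3

theorem vec_ne_zero (m s : ℕ) : vec K m s ≠ 0 := by
  intro h
  have := congrFun h (emb m 0)
  rw [vec, gam_emb] at this
  simp [gam] at this

/-- the points of the counterexample -/
noncomputable def pt (K : Type*) [Field K] (m s : ℕ) : ℙ K (Fin (m + 3 + 1) → K) :=
  Projectivization.mk K (vec K m s) (vec_ne_zero m s)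

theorem eval_aeval_gam (m s : ℕ) (F : MvPolynomial (Fin (m + 3 + 1)) K) :
    (aeval (gam K m) F).eval (s : K) = eval (vec K m s) F := by
  have h1 : (Polynomial.aeval (s : K)) (aeval (gam K m) F) =
      aeval (fun i => Polynomial.aeval (s : K) (gam K m i)) F := by
    rw [← MvPolynomial.comp_aeval_apply]
  rw [Polynomial.coe_aeval_eq_eval] at h1
  exact h1

/-- the counterexample: `16 * 4 ^ m` points of the curve -/
noncomputable def ZZ (K : Type*) [Field K] (m : ℕ) : Finset (ℙ K (Fin (m + 3 + 1) → K)) := by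
  classical exact (Finset.Icc 1 (16 * 4 ^ m)).image (pt K m)

theorem mem_ZZ {m : ℕ} {p : ℙ K (Fin (m + 3 + 1) → K)} :
    p ∈ ZZ K m ↔ ∃ s, (1 ≤ s ∧ s ≤ 16 * 4 ^ m) ∧ pt K m s = p := by
  classical
  simp [ZZ]

variable [CharZero K]

/-- a form of degree at most three vanishes at the points if and only if it vanishes on the
curve -/
theorem mem_idealOf_ZZ {m d : ℕ} (hd : d ≤ 3) {F : MvPolynomial (Fin (m + 3 + 1)) K}
    (hF : F.IsHomogeneous d) :
    F ∈ idealOf (ZZ K m : Set (ℙ K (Fin (m + 3 + 1) → K))) ↔ aeval (gam K m) F = 0 := by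
  constructor
  · classical
    intro h
    by_contra hne
    have h1 : ∀ s : ℕ, 1 ≤ s → s ≤ 16 * 4 ^ m → (aeval (gam K m) F).eval (s : K) = 0 := by
      intro s hs hs'
      rw [eval_aeval_gam]
      exact eval_of_mem h _ (vec_ne_zero m s) (mem_ZZ.2 ⟨s, ⟨hs, hs'⟩, rfl⟩)
    have h2 := natDegree_aeval_gam m d hd F hF
    have h3 : ((Finset.Icc 1 (16 * 4 ^ m)).image (fun s : ℕ => (s : K))).card ≤
        (aeval (gam K m) F).roots.toFinset.card := by
      apply Finset.card_le_card
      intro x hx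
      obtain ⟨s, hs, rfl⟩ := Finset.mem_image.1 hx
      rw [Finset.mem_Icc] at hs
      rw [Multiset.mem_toFinset, Polynomial.mem_roots hne]
      exact h1 s hs.1 hs.2
    rw [Finset.card_image_of_injective _ Nat.cast_injective, Nat.card_Icc] at h3
    have h4 := (Multiset.toFinset_card_le (aeval (gam K m) F).roots).trans
      (Polynomial.card_roots' _)
    omega
  · intro h
    apply form_mem_idealOf hF
    intro p hp
    obtain ⟨s, _, rfl⟩ := mem_ZZ.1 (Finset.mem_coe.1 hp)
    refine ⟨vec K m s, vec_ne_zero m s, rfl, ?_⟩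
    rw [← eval_aeval_gam, h, Polynomial.eval_zero]

theorem nondegenerate_ZZ (m : ℕ) : Nondegenerate (ZZ K m) := by
  intro l hl h
  exact low m 1 (by norm_num) l hl ((mem_idealOf_ZZ (by norm_num) hl).1 h)

theorem lgp_ZZ (m : ℕ) : LinearGeneralPosition (ZZ K m) := by
  classical
  intro T hT hcard
  have h1 : ∀ p : T, ∃ s, 0 < s ∧ pt K m s = p := by
    intro p
    obtain ⟨s, hs, h⟩ := mem_ZZ.1 (hT p.2)
    exact ⟨s, hs.1, h⟩
  choose s hs0 hs using h1
  have hinj : Function.Injective s := by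
    intro p q h
    apply Subtype.ext
    rw [← hs p, ← hs q, h]
  have h2 := linearIndependent_vec K m (ι := T) (by rw [Fintype.card_coe]; exact hcard) s hinj hs0
  have h3 := Projectivization.Independent.mk (fun p : T => vec K m (s p))
    (fun p => vec_ne_zero m (s p)) h2
  have h4 : (fun p : T => Projectivization.mk K (vec K m (s p)) (vec_ne_zero m (s p))) =
      fun p : T => (p : ℙ K (Fin (m + 3 + 1) → K)) := by
    funext p
    exact hs p
  rwa [h4] at h3

/-- five cubic forms that vanish on the curve `1, s ^ 2, s ^ 3 + s ^ 4, s ^ 5` -/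
noncomputable def five (K : Type*) [Field K] : Fin 5 → MvPolynomial (Fin 4) K :=
  ![X 1 ^ 3 - X 0 * X 1 * X 2 + X 0 ^ 2 * X 3,
    X 1 ^ 2 * X 2 - X 0 * X 2 ^ 2 + X 0 * X 1 * X 3 + X 0 * X 1 * X 2 - X 0 ^ 2 * X 3,
    X 1 ^ 2 * X 3 - X 0 * X 2 * X 3 + X 0 * X 2 ^ 2 - C 2 * (X 0 * X 1 * X 3) -
      X 0 * X 1 * X 2 + X 0 ^ 2 * X 3,
    X 1 * X 2 ^ 2 - X 0 * X 3 ^ 2 - C 2 * (X 0 * X 2 * X 3) + X 0 * X 2 ^ 2 -
      C 2 * (X 0 * X 1 * X 3) - X 0 * X 1 * X 2 + X 0 ^ 2 * X 3,
    X 2 ^ 3 - X 1 * X 3 ^ 2 - C 3 * (X 1 * X 2 * X 3) - X 0 * X 2 * X 3 + X 0 * X 2 ^ 2 -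
      C 2 * (X 0 * X 1 * X 3) - X 0 * X 1 * X 2 + X 0 ^ 2 * X 3]

omit [CharZero K] in
theorem homog3 (i j k : Fin 4) : (X i * X j * X k : MvPolynomial (Fin 4) K).IsHomogeneous 3 :=
  ((isHomogeneous_X K i).mul (isHomogeneous_X K j)).mul (isHomogeneous_X K k)

omit [CharZero K] in
theorem homog3' (i j : Fin 4) : (X i ^ 2 * X j : MvPolynomial (Fin 4) K).IsHomogeneous 3 := by
  rw [pow_two]; exact homog3 i i j

omit [CharZero K] in
theorem homog3'' (i j : Fin 4) : (X i * X j ^ 2 : MvPolynomial (Fin 4) K).IsHomogeneous 3 := by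
  rw [pow_two, ← mul_assoc]; exact homog3 i j j

omit [CharZero K] in
theorem homog33 (i : Fin 4) : (X i ^ 3 : MvPolynomial (Fin 4) K).IsHomogeneous 3 := by
  rw [pow_succ, pow_two]; exact homog3 i i i

omit [CharZero K] in
theorem homogC (c : K) {F : MvPolynomial (Fin 4) K} (h : F.IsHomogeneous 3) :
    (C c * F).IsHomogeneous 3 := by
  have := (isHomogeneous_C (Fin 4) c).mul h
  rwa [zero_add] at this

omit [CharZero K] in
theorem five_homog (i : Fin 5) : (five K i).IsHomogeneous 3 := by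
  fin_cases i
  · exact ((homog33 1).sub (homog3 0 1 2)).add (homog3' 0 3)
  · exact ((((homog3' 1 2).sub (homog3'' 0 2)).add (homog3 0 1 3)).add (homog3 0 1 2)).sub
      (homog3' 0 3)
  · exact (((((homog3' 1 3).sub (homog3 0 2 3)).add (homog3'' 0 2)).sub
      (homogC 2 (homog3 0 1 3))).sub (homog3 0 1 2)).add (homog3' 0 3)
  · exact ((((((homog3'' 1 2).sub (homog3'' 0 3)).sub (homogC 2 (homog3 0 2 3))).add
      (homog3'' 0 2)).sub (homogC 2 (homog3 0 1 3))).sub (homog3 0 1 2)).add (homog3' 0 3)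
  · exact (((((((homog33 2).sub (homog3'' 1 3)).sub (homogC 3 (homog3 1 2 3))).sub
      (homog3 0 2 3)).add (homog3'' 0 2)).sub (homogC 2 (homog3 0 1 3))).sub
      (homog3 0 1 2)).add (homog3' 0 3)

omit [CharZero K] in
theorem five_aeval (i : Fin 5) : aeval (gam K 0) (five K i) = 0 := by
  fin_cases i <;>
  · simp only [five, gam, Matrix.cons_val, map_add, map_sub, map_mul, map_pow, aeval_X,
      map_ofNat, Fin.mk_one, Fin.reduceFinMk, Fin.zero_eta]
    ring

theorem five_indep (c : Fin 5 → K) (h : ∑ i, c i • five K i = 0) : ∀ i, c i = 0 := by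
  have h1 : ∀ v : Fin 4 → K, ∑ i, c i * eval v (five K i) = 0 := by
    intro v
    have := congrArg (eval v) h
    simpa using this
  have e1 := h1 ![0, 1, 0, 0]
  have e2 := h1 ![0, 0, 1, 0]
  have e3 := h1 ![0, 1, 0, 1]
  have e4 := h1 ![0, 1, 1, 0]
  have e5 := h1 ![0, 1, -1, 0]
  simp [Fin.sum_univ_five, five] at e1 e2 e3 e4 e5
  have f0 : c 0 = 0 := e1
  have f4 : c 4 = 0 := e2
  have f2 : c 2 = 0 := by linear_combination e3 - f0 + f4
  have f3 : c 3 = 0 := by
    have : (2 : K) * c 3 = 0 := by linear_combination e4 + e5 - 2 * f0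
    exact (mul_eq_zero.1 this).resolve_left two_ne_zero
  have f1 : c 1 = 0 := by linear_combination e4 - f0 - f3 - f4
  intro i
  fin_cases i
  · exact f0
  · exact f1
  · exact f2
  · exact f3
  · exact f4

theorem five_le (m : ℕ) :
    5 ≤ hdim (idealOf (ZZ K m : Set (ℙ K (Fin (m + 3 + 1) → K)))) 3 := by
  have hmem : ∀ i, rename (emb m) (five K i) ∈
      part (idealOf (ZZ K m : Set (ℙ K (Fin (m + 3 + 1) → K)))) 3 := by
    intro i
    have hh : (rename (emb m) (five K i)).IsHomogeneous 3 := (five_homog i).rename_isHomogeneous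
    refine ⟨?_, hh⟩
    refine (mem_idealOf_ZZ le_rfl hh).2 ?_
    rw [aeval_rename, ← five_aeval (K := K) i]
    congr 2
    funext j
    exact gam_emb K m j
  have hli : LinearIndependent K (fun i : Fin 5 => (⟨rename (emb m) (five K i), hmem i⟩ :
      part (idealOf (ZZ K m : Set (ℙ K (Fin (m + 3 + 1) → K)))) 3)) := by
    rw [Fintype.linearIndependent_iff]
    intro c hc
    apply five_indep c
    apply rename_injective _ (emb_injective m)
    rw [map_zero, map_sum]
    have := congrArg Subtype.val hc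
    simp only [Submodule.coe_sum, Submodule.coe_smul, Submodule.coe_zero] at this
    rw [← this]
    exact Finset.sum_congr rfl fun i _ => by rw [map_smul]
  have := hli.fintype_card_le_finrank
  rwa [Fintype.card_fin] at this

/-- the four derivatives at `P` -/
noncomputable def der (m : ℕ) (P : Fin (m + 3 + 1) → K) :
    part (idealOf (ZZ K m : Set (ℙ K (Fin (m + 3 + 1) → K)))) 3 →ₗ[K] (Fin 4 → K) :=
  LinearMap.pi fun i =>
    ((aeval P : MvPolynomial (Fin (m + 3 + 1)) K →ₐ[K] K).toLinearMap ∘ₗ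
      (pderiv (emb m i) : Derivation K (MvPolynomial (Fin (m + 3 + 1)) K) _).toLinearMap) ∘ₗ
      (part (idealOf (ZZ K m : Set (ℙ K (Fin (m + 3 + 1) → K)))) 3).subtype

omit [CharZero K] in
theorem der_apply (m : ℕ) (P : Fin (m + 3 + 1) → K)
    (F : part (idealOf (ZZ K m : Set (ℙ K (Fin (m + 3 + 1) → K)))) 3) (i : Fin 4) :
    der m P F i = eval P (pderiv (emb m i) F.1) := rfl

theorem mem_fat (m : ℕ) (P : ℙ K (Fin (m + 3 + 1) → K))
    (F : part (idealOf (ZZ K m : Set (ℙ K (Fin (m + 3 + 1) → K)))) 3) (hF : der m P.rep F = 0) :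
    F.1 ∈ part (idealFat (ZZ K m : Set (ℙ K (Fin (m + 3 + 1) → K))) 2 P) 3 := by
  classical
  obtain ⟨F, hF1, hF2⟩ := F
  have hF2' : F.IsHomogeneous 3 := hF2
  obtain ⟨G, hG, rfl⟩ := cubic m F hF2' ((mem_idealOf_ZZ le_rfl hF2').1 hF1)
  have hd : ∀ i, eval P.rep (pderiv i (rename (emb m) G)) = 0 := by
    intro i
    by_cases hi : i ∈ Set.range (emb m)
    · obtain ⟨j, rfl⟩ := hi
      exact congrFun hF j
    · rw [pderiv_eq_zero_of_notMem_vars, map_zero]
      intro h
      obtain ⟨j, _, rfl⟩ := Finset.mem_image.1 (vars_rename _ _ h)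
      exact hi ⟨j, rfl⟩
  have h0 : eval P.rep (rename (emb m) G) = 0 := by
    have h1 := congrArg (eval P.rep) hF2'.sum_X_mul_pderiv
    rw [map_sum, map_nsmul, Finset.sum_eq_zero (fun i _ => by rw [map_mul, hd i, mul_zero]),
      nsmul_eq_mul] at h1
    exact (mul_eq_zero.1 h1.symm).resolve_left (by norm_num)
  refine ⟨⟨hF1, ?_⟩, hF2⟩
  exact mem_sq P.rep P.rep_nonzero _
    (fun l hl hl0 => form_mem_idealOf hl fun p hp => ⟨P.rep, P.rep_nonzero,
      by rw [Set.mem_singleton_iff.1 hp, Projectivization.mk_rep], hl0⟩) 3 _ hF2' h0 hd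

theorem unexpected_ZZ (m : ℕ) (hm : 1 ≤ m) (P : ℙ K (Fin (m + 3 + 1) → K)) :
    UnexpectedAt (ZZ K m) 3 2 P := by
  have h1 := five_le (K := K) m
  have h2 := LinearMap.finrank_range_add_finrank_ker (der m P.rep)
  have h3 : Module.finrank K (LinearMap.range (der m P.rep)) ≤ 4 := by
    have := Submodule.finrank_le (LinearMap.range (der m P.rep))
    rwa [Module.finrank_fin_fun] at this
  have h4 : Module.finrank K (LinearMap.ker (der m P.rep)) ≤
      hdim (idealFat (ZZ K m : Set (ℙ K (Fin (m + 3 + 1) → K))) 2 P) 3 := by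
    have h5 : (LinearMap.ker (der m P.rep)).map
        (part (idealOf (ZZ K m : Set (ℙ K (Fin (m + 3 + 1) → K)))) 3).subtype ≤
        part (idealFat (ZZ K m : Set (ℙ K (Fin (m + 3 + 1) → K))) 2 P) 3 := by
      rintro _ ⟨F, hF, rfl⟩
      exact mem_fat m P F hF
    have h6 := Submodule.finrank_mono h5
    rwa [Submodule.finrank_map_subtype_eq] at h6
  have h7 : (2 + (m + 3) - 1).choose (m + 3) = m + 4 := by
    rw [show 2 + (m + 3) - 1 = (m + 3) + 1 by omega, Nat.choose_succ_self_right]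
  rw [UnexpectedAt, h7]
  unfold hdim at *
  omega

end Lemmas

/-- For every field `K` of characteristic zero and every `n ≥ 4` there is a finite nondegenerate
set `Z` of points of `ℙ^n` in linear general position which admits an unexpected hypersurface of
degree `3` with multiplicity `2` at a general point (even at every point). -/
theorem result (K : Type*) [Field K] [CharZero K] (n : ℕ) (hn : 4 ≤ n) :
    ∃ Z : Finset (ℙ K (Fin (n + 1) → K)),
      Nondegenerate Z ∧ LinearGeneralPosition Z ∧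
      (∀ P : ℙ K (Fin (n + 1) → K), UnexpectedAt Z 3 2 P) ∧ AdmitsUnexpected Z 3 2 := by
  obtain ⟨m, rfl⟩ : ∃ m, n = m + 3 := ⟨n - 3, by omega⟩
  refine ⟨ZZ K m, nondegenerate_ZZ m, lgp_ZZ m, fun P => unexpected_ZZ m (by omega) P, ?_⟩
  exact ⟨1, 0, one_ne_zero, isHomogeneous_one _ _, fun P _ => unexpected_ZZ m (by omega) P⟩

end Pool.Agent.Results.MP_b2f0ea_ag.UnexpectedCubic
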